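import Mathlib
import Pool.Agent.Helper28.IW.Twin2

set_option autoImplicit false

open Complex MeasureTheory
open scoped ContDiff

namespace Pool.Agent.Results.MP_f7b570_an.SobolevForm

/-- `g` is the distributional derivative of `f` in the direction `v` (`v = 1`: derivative in `x`,
`v = I`: derivative in `y`). -/
def WeakDeriv (f g : ℂ → ℂ) (v : ℂ) : Prop :=
  ∀ φ : ℂ → ℂ, ContDiff ℝ ∞ φ → HasCompactSupport φ →
    ∫ z, f z * fderiv ℝ φ z v = - ∫ z, g z * φ z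

/-- `f` is in the homogeneous Sobolev space of exponent `p`, with first partial derivatives `f₁`
(in `x`) and `f₂` (in `y`). -/
structure Sobolev (p : ℝ) (f f₁ f₂ : ℂ → ℂ) : Prop where
  locInt : LocallyIntegrable f volume
  memLp₁ : MemLp f₁ (ENNReal.ofReal p) volume
  memLp₂ : MemLp f₂ (ENNReal.ofReal p) volume
  deriv₁ : WeakDeriv f f₁ 1
  deriv₂ : WeakDeriv f f₂ I

/-- `∂̄ v = ∂ u` in the sense of distributions. -/
def Transform (u v : ℂ → ℂ) : Prop :=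
  ∀ φ : ℂ → ℂ, ContDiff ℝ ∞ φ → HasCompactSupport φ →
    ∫ z, v z * ((1 / 2 : ℂ) * (fderiv ℝ φ z 1 + I * fderiv ℝ φ z I)) =
      ∫ z, u z * ((1 / 2 : ℂ) * (fderiv ℝ φ z 1 - I * fderiv ℝ φ z I))

/-- Sverak's function of `s = |∂f|` and `d = |∂̄f|`. -/
noncomputable def L (s d : ℝ) : ℝ := if s + d ≤ 1 then s ^ 2 - d ^ 2 else 2 * s - 1

theorem rel_conj {u v : ℂ → ℂ} (h : Transform u v) :
    Helper28.IW.Rel (fun z => (starRingEnd ℂ) (u z)) (fun z => (starRingEnd ℂ) (v z)) := by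
  intro φ h1 h2
  have h3 : ContDiff ℝ ∞ fun z => (starRingEnd ℂ) (φ z) := Complex.conjCLE.contDiff.comp h1
  have h4 : HasCompactSupport fun z => (starRingEnd ℂ) (φ z) := h2.comp_left (by simp)
  have h5 := h _ h3 h4
  have hd : ∀ z, DifferentiableAt ℝ φ z := fun z => h1.differentiable (by simp) z
  have e0 : ∀ z v : ℂ, fderiv ℝ (fun z => (starRingEnd ℂ) (φ z)) z v =
      (starRingEnd ℂ) (fderiv ℝ φ z v) := by
    intro z v
    have := (Complex.conjCLE.toContinuousLinearMap.hasFDerivAt.comp z (hd z).hasFDerivAt).fderiv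
    have e : (fun z => (starRingEnd ℂ) (φ z)) = (Complex.conjCLE : ℂ → ℂ) ∘ φ := rfl
    rw [e]
    erw [this]
    rfl
  have e1 : ∫ z, (starRingEnd ℂ) (v z) * Helper28.BA.dz φ z =
      (starRingEnd ℂ) (∫ z, v z * ((1 / 2 : ℂ) * (fderiv ℝ (fun z => (starRingEnd ℂ) (φ z)) z 1 +
        I * fderiv ℝ (fun z => (starRingEnd ℂ) (φ z)) z I))) := by
    rw [← integral_conj]
    refine integral_congr_ae (Filter.Eventually.of_forall fun z => ?_)
    simp only [e0, Helper28.BA.dz, map_mul, map_add, Complex.conj_conj, Complex.conj_I, map_div₀,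
      map_one, map_ofNat]
    ring
  have e2 : ∫ z, (starRingEnd ℂ) (u z) * Helper28.BA.db φ z =
      (starRingEnd ℂ) (∫ z, u z * ((1 / 2 : ℂ) * (fderiv ℝ (fun z => (starRingEnd ℂ) (φ z)) z 1 -
        I * fderiv ℝ (fun z => (starRingEnd ℂ) (φ z)) z I))) := by
    rw [← integral_conj]
    refine integral_congr_ae (Filter.Eventually.of_forall fun z => ?_)
    simp only [e0, Helper28.BA.db, map_mul, map_sub, Complex.conj_conj, Complex.conj_I, map_div₀,
      map_one, map_ofNat]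
    ring
  rw [e1, e2, h5]

theorem transform_of_rel {u v : ℂ → ℂ}
    (h : Helper28.IW.Rel (fun z => (starRingEnd ℂ) (u z)) v) :
    Transform u (fun z => (starRingEnd ℂ) (v z)) := by
  intro φ h1 h2
  have h3 : ContDiff ℝ ∞ fun z => (starRingEnd ℂ) (φ z) := Complex.conjCLE.contDiff.comp h1
  have h4 : HasCompactSupport fun z => (starRingEnd ℂ) (φ z) := h2.comp_left (by simp)
  have h5 := h _ h3 h4
  have hd : ∀ z, DifferentiableAt ℝ φ z := fun z => h1.differentiable (by simp) z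
  have e0 : ∀ z v : ℂ, fderiv ℝ (fun z => (starRingEnd ℂ) (φ z)) z v =
      (starRingEnd ℂ) (fderiv ℝ φ z v) := by
    intro z v
    have := (Complex.conjCLE.toContinuousLinearMap.hasFDerivAt.comp z (hd z).hasFDerivAt).fderiv
    have e : (fun z => (starRingEnd ℂ) (φ z)) = (Complex.conjCLE : ℂ → ℂ) ∘ φ := rfl
    rw [e]
    erw [this]
    rfl
  have e1 : ∫ z, (starRingEnd ℂ) (v z) * ((1 / 2 : ℂ) * (fderiv ℝ φ z 1 + I * fderiv ℝ φ z I)) =
      (starRingEnd ℂ) (∫ z, v z * Helper28.BA.dz (fun z => (starRingEnd ℂ) (φ z)) z) := by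
    rw [← integral_conj]
    refine integral_congr_ae (Filter.Eventually.of_forall fun z => ?_)
    simp only [Helper28.BA.dz, e0, map_mul, map_sub, Complex.conj_conj, Complex.conj_I, map_div₀,
      map_one, map_ofNat]
    ring
  have e2 : ∫ z, u z * ((1 / 2 : ℂ) * (fderiv ℝ φ z 1 - I * fderiv ℝ φ z I)) =
      (starRingEnd ℂ) (∫ z, (starRingEnd ℂ) (u z) *
        Helper28.BA.db (fun z => (starRingEnd ℂ) (φ z)) z) := by
    rw [← integral_conj]
    refine integral_congr_ae (Filter.Eventually.of_forall fun z => ?_)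
    simp only [Helper28.BA.db, e0, map_mul, map_add, Complex.conj_conj, Complex.conj_I, map_div₀,
      map_one, map_ofNat]
    ring
  rw [e1, e2, h5]

/-- Iwaniec's conjecture.
(1) For every `p > 1` and every `f` in the homogeneous Sobolev space of exponent `p`,
`∫ |∂̄f|^p ≤ (p* - 1)^p ∫ |∂f|^p`.
(2) For every `p > 1` and every `u` in `L^p` there is exactly one `v` in `L^p` (up to null sets) with
`∂̄ v = ∂ u`, the Beurling-Ahlfors transform of `u`, and `‖v‖_p ≤ (p* - 1) ‖u‖_p`.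
(3) Sverak's inequality: `∫ L(|∂f|, |∂̄f|) ≥ 0` for every `f` in the homogeneous Sobolev space of
exponent `2`. -/
theorem result :
    (∀ p : ℝ, 1 < p → ∀ f f₁ f₂ : ℂ → ℂ, Sobolev p f f₁ f₂ →
      ∫ z, ‖(1 / 2 : ℂ) * (f₁ z + I * f₂ z)‖ ^ p ≤
        (max p (p / (p - 1)) - 1) ^ p * ∫ z, ‖(1 / 2 : ℂ) * (f₁ z - I * f₂ z)‖ ^ p) ∧
    (∀ p : ℝ, 1 < p → ∀ u : ℂ → ℂ, MemLp u (ENNReal.ofReal p) volume →
      ∃ v : ℂ → ℂ, MemLp v (ENNReal.ofReal p) volume ∧ Transform u v ∧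
        (∀ v' : ℂ → ℂ, MemLp v' (ENNReal.ofReal p) volume → Transform u v' → v' =ᵐ[volume] v) ∧
        ∫ z, ‖v z‖ ^ p ≤ (max p (p / (p - 1)) - 1) ^ p * ∫ z, ‖u z‖ ^ p) ∧
    (∀ f f₁ f₂ : ℂ → ℂ, Sobolev 2 f f₁ f₂ →
      Integrable (fun z => L ‖(1 / 2 : ℂ) * (f₁ z - I * f₂ z)‖ ‖(1 / 2 : ℂ) * (f₁ z + I * f₂ z)‖) ∧
      0 ≤ ∫ z, L ‖(1 / 2 : ℂ) * (f₁ z - I * f₂ z)‖ ‖(1 / 2 : ℂ) * (f₁ z + I * f₂ z)‖) := by
  have mem : ∀ {p : ℝ} {f f₁ f₂ : ℂ → ℂ}, Sobolev p f f₁ f₂ →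
      MemLp (fun z => (1 / 2 : ℂ) * (f₁ z - I * f₂ z)) (ENNReal.ofReal p) volume ∧
      MemLp (fun z => (1 / 2 : ℂ) * (f₁ z + I * f₂ z)) (ENNReal.ofReal p) volume := fun h =>
    ⟨(h.memLp₁.sub (h.memLp₂.const_mul I)).const_mul _,
      (h.memLp₁.add (h.memLp₂.const_mul I)).const_mul _⟩
  refine ⟨fun p hp f f₁ f₂ h => ?_, fun p hp u hu => ?_, fun f f₁ f₂ h => ?_⟩
  · exact Helper28.IW.pair_le hp (mem h).1 (mem h).2
      (Helper28.IW.rel_of_weak hp h.memLp₁ h.memLp₂ h.deriv₁ h.deriv₂)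
  · have hc : ∀ {w : ℂ → ℂ}, MemLp w (ENNReal.ofReal p) volume →
        MemLp (fun z => (starRingEnd ℂ) (w z)) (ENNReal.ofReal p) volume := by
      intro w hw
      refine hw.congr_norm ?_ (Filter.Eventually.of_forall fun z => by simp)
      exact Complex.continuous_conj.comp_aestronglyMeasurable hw.1
    obtain ⟨v, h1, h2, h3, -⟩ := Helper28.IW.transform hp (hc hu)
    have h4 := Helper28.IW.pair_le hp (hc hu) h1 h2
    refine ⟨fun z => (starRingEnd ℂ) (v z), hc h1, transform_of_rel h2, fun v' m r => ?_, ?_⟩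
    · have h5 := h3 _ (hc m) (rel_conj r)
      filter_upwards [h5] with z hz
      rw [← hz, Complex.conj_conj]
    · simpa only [RCLike.norm_conj] using h4
  · have r := Helper28.IW.rel_of_weak (p := 2) (by norm_num) h.memLp₁ h.memLp₂ h.deriv₁ h.deriv₂
    exact ⟨Helper28.IW.psi_int (mem h).1 (mem h).2, Helper28.IW.sverak (mem h).1 (mem h).2 r⟩

end Pool.Agent.Results.MP_f7b570_an.SobolevForm
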